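import Pool.Agent.W314.BA.Fin

/-!
# MP_f2742c_an: `L¹` ball averages for an action of `PSL₂(ℝ)` without spectral gap

There is an ergodic probability measure preserving action of `PSL₂(ℝ)` without spectral gap for
which the pointwise ergodic theorem for ball averages holds for every function in `L¹`.

The space is `Y × ℝ/ℤ`, where `Y` is a fundamental set for a cocompact arithmetic lattice `Γ` in
`SL(2,ℝ)` (norm one units of a quaternion order) with a nontrivial homomorphism to `ℤ`, and the
action is the one induced from the action of `Γ` by an irrational rotation.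
-/

set_option autoImplicit false

open MeasureTheory Filter Topology

namespace Pool.Agent.Results.MP_f2742c_an.BallAveragesNoGap

open Pool.Agent.W314.BA (PSL ballP)

theorem result : ∃ (X : Type) (_ : MeasurableSpace X) (_ : StandardBorelSpace X)
    (_ : MulAction PSL X) (μ : Measure X), IsProbabilityMeasure μ ∧
    -- the action is measurable and preserves the measure
    Measurable (fun p : PSL × X => p.1 • p.2) ∧
    (∀ g : PSL, MeasurePreserving (fun x : X => g • x) μ μ) ∧
    -- ergodicity
    (∀ A : Set X, MeasurableSet A → (∀ g : PSL, (fun x : X => g • x) ⁻¹' A =ᵐ[μ] A) →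
      μ A = 0 ∨ μ A = 1) ∧
    -- no spectral gap
    (∀ (Q : Set PSL), IsCompact Q → ∀ ε : ℝ, 0 < ε → ∃ F : X → ℝ, MemLp F 2 μ ∧
      ∫ x, F x ∂μ = 0 ∧ 0 < eLpNorm F 2 μ ∧
      ∀ g ∈ Q, eLpNorm (fun x => F (g⁻¹ • x) - F x) 2 μ ≤ ENNReal.ofReal ε * eLpNorm F 2 μ) ∧
    -- the pointwise ergodic theorem in `L¹` for ball averages
    (∀ (m : Measure PSL) [m.IsHaarMeasure] (p₀ : UpperHalfPlane) (F : X → ℝ), Integrable F μ →
      ∀ᵐ x ∂μ, Tendsto (fun r : ℝ => (m.real (ballP p₀ r))⁻¹ * ∫ g in ballP p₀ r, F (g • x) ∂m)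
        atTop (𝓝 (∫ x, F x ∂μ))) :=
  Pool.Agent.W314.BA.final

end Pool.Agent.Results.MP_f2742c_an.BallAveragesNoGap
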